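import Pool.Agent.Helper46.NB.Stmts

set_option autoImplicit false

namespace Pool.Agent.Helper6.NB

open Finset
open scoped Classical
open Pool.Agent.Helper46.NB

noncomputable section

/-- the number of edges adjacent to `e` with `c` in their list -/
theorem card_adj {V : Type} [Fintype V] {E : Finset (Sym2 V)} {L : Sym2 V → Finset ℕ} {l t D : ℕ}
    (h : Reg E L l t D) {e : Sym2 V} (he : e ∈ E) {c : ℕ} (hc : c ∈ L e) :
    #(E.filter fun e' => Adj e e' ∧ c ∈ L e') = 2 * t - 2 := by
  induction e using Sym2.inductionOn with
  | hf v w =>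
    have hvw : v ≠ w := by
      intro h1
      exact h.loop _ he (by rw [Sym2.mk_isDiag_iff]; exact h1)
    have hTv : s(v, w) ∈ T E L v c := Finset.mem_filter.2 ⟨he, by simp, hc⟩
    have hTw : s(v, w) ∈ T E L w c := Finset.mem_filter.2 ⟨he, by simp, hc⟩
    have hv : #(T E L v c) = t := by
      rcases h.col v c with h1 | h1
      · rw [h1] at hTv; simp at hTv
      · exact h1
    have hw : #(T E L w c) = t := by
      rcases h.col w c with h1 | h1
      · rw [h1] at hTw; simp at hTw
      · exact h1
    have hint : T E L v c ∩ T E L w c = {s(v, w)} := by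
      ext x
      simp only [Finset.mem_inter, Finset.mem_singleton]
      constructor
      · rintro ⟨h1, h2⟩
        have h3 := (Finset.mem_filter.1 h1).2.1
        have h4 := (Finset.mem_filter.1 h2).2.1
        exact (Sym2.mem_and_mem_iff hvw).1 ⟨h3, h4⟩
      · rintro rfl
        exact ⟨hTv, hTw⟩
    have hset : (E.filter fun e' => Adj s(v, w) e' ∧ c ∈ L e') =
        (T E L v c ∪ T E L w c).erase s(v, w) := by
      ext x
      simp only [Finset.mem_filter, Finset.mem_erase, Finset.mem_union, T, Adj]
      constructor
      · rintro ⟨h1, ⟨h2, u, h3, h4⟩, h5⟩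
        refine ⟨fun h6 => h2 h6.symm, ?_⟩
        rw [Sym2.mem_iff] at h3
        rcases h3 with rfl | rfl
        · exact Or.inl ⟨h1, h4, h5⟩
        · exact Or.inr ⟨h1, h4, h5⟩
      · rintro ⟨h1, h2 | h2⟩
        · exact ⟨h2.1, ⟨fun h6 => h1 h6.symm, v, by simp, h2.2.1⟩, h2.2.2⟩
        · exact ⟨h2.1, ⟨fun h6 => h1 h6.symm, w, by simp, h2.2.1⟩, h2.2.2⟩
    have h1 := Finset.card_union_add_card_inter (T E L v c) (T E L w c)
    rw [hint, Finset.card_singleton, hv, hw] at h1
    rw [hset, Finset.card_erase_of_mem (Finset.mem_union_left _ hTv)]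
    omega

/-- the values of the coordinate of `e'` for which `c` is not picked -/
theorem card_ne {V : Type} [Fintype V] {N : ℕ} {E : Finset (Sym2 V)} {L : Sym2 V → Finset ℕ}
    {pick : Sym2 V → Fin N → Option ℕ} (hp : IsPick E L N pick) {e : Sym2 V} (he : e ∈ E) (c : ℕ) :
    #(univ.filter fun a => pick e a ≠ some c) = if c ∈ L e then N - 1 else N := by
  have h1 : #(univ.filter fun a => pick e a = some c) + #(univ.filter fun a => ¬ pick e a = some c) =
      #(univ : Finset (Fin N)) := Finset.card_filter_add_card_filter_not _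
  rw [Finset.card_univ, Fintype.card_fin] at h1
  by_cases h : c ∈ L e
  · rw [if_pos h]
    have h2 := (hp e he).1 c h
    have h3 : #(univ.filter fun a => pick e a ≠ some c) =
      #(univ.filter fun a => ¬ pick e a = some c) := rfl
    rw [h3]
    omega
  · rw [if_neg h]
    have h2 : #(univ.filter fun a => pick e a = some c) = 0 := by
      rw [Finset.card_eq_zero, Finset.filter_eq_empty_iff]
      intro a _ h3
      exact h ((hp e he).2 a c h3)
    have h3 : #(univ.filter fun a => pick e a ≠ some c) =
      #(univ.filter fun a => ¬ pick e a = some c) := rfl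
    rw [h3]
    omega

theorem st_P1 (hP : ST_PROD) : ST_P1 := by
  intro V _ N hN E L l t D pick hReg hp e he c hc
  have hN0 : (0 : ℝ) < N := by exact_mod_cast (by omega : 0 < N)
  set A : Sym2 V → Finset (Fin N) := fun e' =>
    if e' = e then univ.filter fun a => pick e a = some c else
      univ.filter fun a => pick e' a ≠ some c with hA
  set S : Finset (Sym2 V) := insert e (E.filter fun e' => Adj e e') with hS
  have hnot : e ∉ E.filter fun e' => Adj e e' := by
    intro h
    exact (Finset.mem_filter.1 h).2.1 rfl
  have hev : ∀ ω : Sym2 V → Fin N, Ret E pick ω e c ↔ ∀ e' ∈ S, ω e' ∈ A e' := by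
    intro ω
    constructor
    · rintro ⟨_, h2, h3⟩ e' he'
      rw [hS, Finset.mem_insert] at he'
      rw [hA]
      by_cases h4 : e' = e
      · subst h4
        simp only [if_true, Finset.mem_filter, Finset.mem_univ, true_and]
        exact h2
      · simp only [h4, if_false, Finset.mem_filter, Finset.mem_univ, true_and]
        rcases he' with h5 | h5
        · exact absurd h5 h4
        · exact h3 e' (Finset.mem_filter.1 h5).1 (Finset.mem_filter.1 h5).2
    · intro h
      refine ⟨he, ?_, ?_⟩
      · have h1 := h e (Finset.mem_insert_self _ _)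
        rw [hA] at h1
        simp only [if_true, Finset.mem_filter, Finset.mem_univ, true_and] at h1
        exact h1
      · intro e' he' hadj
        have h1 := h e' (Finset.mem_insert_of_mem (Finset.mem_filter.2 ⟨he', hadj⟩))
        rw [hA] at h1
        have h2 : e' ≠ e := fun h3 => hadj.1 h3.symm
        simp only [h2, if_false, Finset.mem_filter, Finset.mem_univ, true_and] at h1
        exact h1
  have h1 : Pr (fun ω => Ret E pick ω e c) = ∏ e' ∈ S, ((#(A e') : ℝ) / (N : ℝ)) := by
    rw [← hP V N (by omega) S A]
    congr 1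
    funext ω
    exact propext (hev ω)
  rw [h1, hS, Finset.prod_insert hnot]
  have h2 : (#(A e) : ℝ) / N = 1 / N := by
    have : #(A e) = 1 := by
      rw [hA]
      simp only [if_true]
      exact (hp e he).1 c hc
    rw [this]; norm_num
  have h3 : ∏ e' ∈ E.filter (fun e' => Adj e e'), ((#(A e') : ℝ) / (N : ℝ)) =
      ∏ e' ∈ E.filter (fun e' => Adj e e'), (if c ∈ L e' then (1 - 1 / (N : ℝ)) else 1) := by
    apply Finset.prod_congr rfl
    intro e' he'
    have h4 : e' ≠ e := fun h5 => (Finset.mem_filter.1 he').2.1 h5.symm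
    have h5 : #(A e') = if c ∈ L e' then N - 1 else N := by
      rw [hA]
      simp only [h4, if_false]
      exact card_ne hp (Finset.mem_filter.1 he').1 c
    rw [h5]
    by_cases h6 : c ∈ L e'
    · simp only [h6, if_true]
      rw [Nat.cast_sub (by omega)]
      field_simp
      norm_num
    · simp only [h6, if_false]
      field_simp
  rw [h2, h3, Finset.prod_ite, Finset.prod_const_one, mul_one, Finset.prod_const, Finset.filter_filter,
    card_adj hReg he hc]
  rfl

end

end Pool.Agent.Helper6.NB
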