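import Pool.Agent.Helper46.NB.Stmts

set_option autoImplicit false

namespace Pool.Agent.Helper6.NB

open Finset
open scoped Classical
open Pool.Agent.Helper46.NB

noncomputable section

theorem st_STEP (hE : ST_EMB) (hR : ST_REG1) : ST_STEP := by
  intro D hD l t V _ E L hSt ht htl htD hlD hlog l' t' hl' ht'
  obtain ⟨W, hW, ι, E₁, R, L₁, hι, hReg, hRE, hRl, hmap⟩ := hE V E L l t D hSt
  obtain ⟨pick, ω, hp, hX, hY⟩ := hR D hD l t W E₁ R L₁ hReg hRE hRl ht htl htD hlD hlog
  -- kept colours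
  set keep : Sym2 V → Finset ℕ := fun e =>
    (L e).filter fun c => ¬ ∃ v ∈ e.map ι, Lost E₁ pick ω v c with hkeep
  have hkc : ∀ e ∈ E, l' ≤ #(keep e) := by
    intro e he
    obtain ⟨h1, h2⟩ := hmap e he
    have h3 := hX _ h1
    unfold XX at h3
    rw [h2] at h3
    have h4 : #((L e).filter fun c => ∃ v ∈ e.map ι, Lost E₁ pick ω v c) + #(keep e) = l := by
      rw [hkeep]
      refine Eq.trans ?_ (hSt.list e he)
      exact Finset.card_filter_add_card_filter_not _
    have h5 : (#((L e).filter fun c => ∃ v ∈ e.map ι, Lost E₁ pick ω v c) : ℝ) + (#(keep e) : ℝ) = l := by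
      exact_mod_cast h4
    have h7 : (l : ℝ) * (1 - KK l t ^ 2) = l - l * KK l t ^ 2 := by ring
    have h8 : (#((L e).filter fun c => ∃ v ∈ e.map ι, Lost E₁ pick ω v c) : ℝ) <
      l * (1 - KK l t ^ 2) + 1 + ss t D := by
      convert h3
    have h6 : (l' : ℝ) < (#(keep e) : ℝ) := by linarith
    exact_mod_cast h6.le
  have hch : ∀ e, ∃ S : Finset ℕ, e ∈ E → S ⊆ keep e ∧ #S = l' := by
    intro e
    by_cases he : e ∈ E
    · obtain ⟨S, h1, h2⟩ := Finset.exists_subset_card_eq (hkc e he)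
      exact ⟨S, fun _ => ⟨h1, h2⟩⟩
    · exact ⟨∅, fun h => absurd h he⟩
  choose L' hL' using hch
  refine ⟨E.filter fun e => ∀ c, ¬ Ret E₁ pick ω (e.map ι) c, L', ⟨?_, ?_, ?_, ?_⟩, ?_⟩
  · intro e he
    exact hSt.loop e (Finset.mem_filter.1 he).1
  · intro e he
    exact (hL' e (Finset.mem_filter.1 he).1).2
  · intro v c
    have h1 := (hY (ι v) c).trans_le ht'
    unfold YY at h1
    have h2 : #(T (E.filter fun e => ∀ c, ¬ Ret E₁ pick ω (e.map ι) c) L' v c) ≤
        #((T E₁ L₁ (ι v) c).filter fun f => f ∈ R ∧ (∀ c', ¬ Ret E₁ pick ω f c') ∧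
          ∀ w ∈ f, w ≠ ι v → ¬ Lost E₁ pick ω w c) := by
      apply Finset.card_le_card_of_injOn (fun e => e.map ι)
      · intro e he
        simp only [T, Finset.coe_filter, Finset.mem_filter, Set.mem_ofPred_eq] at he ⊢
        obtain ⟨⟨h3, h4⟩, h5, h6⟩ := he
        obtain ⟨h7, h8⟩ := hmap e h3
        have h9 := (hL' e h3).1 h6
        rw [hkeep] at h9
        simp only [Finset.mem_filter] at h9
        refine ⟨⟨hRE h7, Sym2.mem_map.2 ⟨v, h5, rfl⟩, by rw [h8]; exact h9.1⟩, h7, h4, ?_⟩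
        intro w hw _ hlost
        exact h9.2 ⟨w, hw, hlost⟩
      · intro a _ b _ hab
        exact Sym2.map.injective hι hab
    have h3 : (#(T (E.filter fun e => ∀ c, ¬ Ret E₁ pick ω (e.map ι) c) L' v c) : ℝ) < t' :=
      lt_of_le_of_lt (by exact_mod_cast h2) h1
    exact_mod_cast h3.le
  · intro v
    refine le_trans (Finset.card_le_card ?_) (hSt.deg v)
    intro e he
    simp only [Finset.mem_filter] at he ⊢
    exact ⟨he.1.1, he.2⟩
  · rintro ⟨f, hf1, hf2⟩
    have hc : ∀ e, ∃ c, (e ∈ E ∧ ¬ ∀ c, ¬ Ret E₁ pick ω (e.map ι) c) → Ret E₁ pick ω (e.map ι) c := by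
      intro e
      by_cases he : e ∈ E ∧ ¬ ∀ c, ¬ Ret E₁ pick ω (e.map ι) c
      · obtain ⟨_, h2⟩ := he
        push Not at h2
        obtain ⟨c, hc⟩ := h2
        exact ⟨c, fun _ => hc⟩
      · exact ⟨0, fun h => absurd h he⟩
    choose g hg using hc
    refine ⟨fun e => if (∀ c, ¬ Ret E₁ pick ω (e.map ι) c) then f e else g e, ?_, ?_⟩
    · intro e he
      by_cases h : ∀ c, ¬ Ret E₁ pick ω (e.map ι) c
      · simp only [h, not_false_eq_true, implies_true, if_true]
        have h1 := hf1 e (Finset.mem_filter.2 ⟨he, h⟩)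
        have h2 := (hL' e he).1 h1
        rw [hkeep] at h2
        exact (Finset.mem_filter.1 h2).1
      · simp only [h, if_false]
        have h1 := hg e ⟨he, h⟩
        obtain ⟨h2, h3⟩ := hmap e he
        rw [← h3]
        exact (hp _ (hRE h2)).2 _ _ h1.2.1
    · intro e he e' he' hadj
      have hadj' : Adj (e.map ι) (e'.map ι) := by
        obtain ⟨h1, v, h2, h3⟩ := hadj
        exact ⟨fun h => h1 (Sym2.map.injective hι h), ι v, Sym2.mem_map.2 ⟨v, h2, rfl⟩,
          Sym2.mem_map.2 ⟨v, h3, rfl⟩⟩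
      have key : ∀ a b : Sym2 V, a ∈ E → b ∈ E → (∃ v, v ∈ a ∧ v ∈ b) →
          (∀ c, ¬ Ret E₁ pick ω (a.map ι) c) → ¬ (∀ c, ¬ Ret E₁ pick ω (b.map ι) c) → f a ≠ g b := by
        intro a b ha hb ⟨v, hva, hvb⟩ h1 h2 hab
        have h3 := hf1 a (Finset.mem_filter.2 ⟨ha, h1⟩)
        have h4 := (hL' a ha).1 h3
        rw [hkeep] at h4
        refine (Finset.mem_filter.1 h4).2 ⟨ι v, Sym2.mem_map.2 ⟨v, hva, rfl⟩, b.map ι,
          Sym2.mem_map.2 ⟨v, hvb, rfl⟩, ?_⟩
        rw [hab]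
        exact hg b ⟨hb, h2⟩
      by_cases h : ∀ c, ¬ Ret E₁ pick ω (e.map ι) c
      · by_cases h' : ∀ c, ¬ Ret E₁ pick ω (e'.map ι) c
        · simp only [h, h', not_false_eq_true, implies_true, if_true]
          exact hf2 e (Finset.mem_filter.2 ⟨he, h⟩) e' (Finset.mem_filter.2 ⟨he', h'⟩) hadj
        · simp only [h, h', not_false_eq_true, implies_true, if_true, if_false]
          exact key e e' he he' hadj.2 h h'
      · by_cases h' : ∀ c, ¬ Ret E₁ pick ω (e'.map ι) c
        · simp only [h, h', not_false_eq_true, implies_true, if_true, if_false]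
          obtain ⟨v, hv1, hv2⟩ := hadj.2
          exact (key e' e he' he ⟨v, hv2, hv1⟩ h' h).symm
        · simp only [h, h', if_false]
          intro hgg
          have h1 := hg e ⟨he, h⟩
          have h2 := hg e' ⟨he', h'⟩
          rw [← hgg] at h2
          exact h1.2.2 _ h2.1 hadj' h2.2.1

end

end Pool.Agent.Helper6.NB
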